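import Pool.Agent.L5helper76.PT.Ana

/-!
# Lattice knots: a pattern theorem for all words inside a fixed knot type

Every word that occurs in a long polygon of a class `Q` of knot types closed under connected sums
(for instance in a long unknotted polygon) occurs at least `c n ^ (2 / 3)` times in all but a
fraction `exp (-c n ^ (2 / 3))` of the polygons of length `n` of the class.  For an arbitrary class,
for instance one knot type, this holds for the words that occur in long unknotted polygons, at all
lengths at which the count is close to its growth rate.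

Proof.  (a) A block (a hairpin with a polygon `v` at its end) is inserted at contacts of the polygon
with its outside; there are at least `c n ^ (2 / 3)` of them for every polygon (starting files
`H246K2`, `H246K3`, and `L5helper86/KB`, `L5helper43/KM` for polygons of an arbitrary knot type).  An
insertion changes the number of occurrences of the (rotated) block by a bounded number.  So `N`
insertions in a polygon with at most `N` occurrences give a polygon with `O (N)` occurrences; the
number of ways to choose `N` of them is at most `C ^ N`, against `(c n ^ (2 / 3) / N) ^ N` possible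
insertions.  The additional length costs `C ^ N` (ratio limit theorem).
(b) A word of a polygon longer than `(2 |π| + 1) ^ 3` misses one of the faces of its bounding box;
so it occurs in a half-space polygon, and by (a) polygons with many copies of it exist.  Cutting and
joining such polygons at extreme edges destroys a bounded number of copies; one gets one half-space
polygon with all rotations of the word.  Now (a) for this polygon gives the theorem.
-/

set_option autoImplicit false

namespace Pool.Agent.Results.MP_aea6d5_co.KestenPatterns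

open Finset Filter Topology KN PTK

/-- the number of places in the word `w` where the word `π` occurs -/
def Occ (π w : List Dir) : ℕ := ((range w.length).filter (fun i => π <+: w.drop i)).card

/-- `π` occurs in a polygon of class `Q` with more than `(2 |π| + 1) ^ 3` edges, or it occurs in the
rest of a polygon `.zm :: v` of class `Q` whose edge `.zm` is in the left face of its bounding box -/
def Occurs (Q : List Dir → Prop) (π : List Dir) : Prop :=
  (∃ w, SAP w ∧ Q w ∧ π <:+: w ∧ (2 * π.length + 1) ^ 3 < w.length) ∨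
    ∃ v, SAP (.zm :: v) ∧ Q (.zm :: v) ∧ (∀ p ∈ path v, 0 ≤ p.1) ∧ π <:+: v

open scoped Classical in
/-- the number of closed self-avoiding words of length `n` of class `Q` (polygons with a starting
point and an orientation) with less than `x` occurrences of `π` -/
noncomputable def few (Q : List Dir → Prop) (π : List Dir) (x : ℝ) (n : ℕ) : ℕ :=
  ((K Q n).filter (fun w => (Occ π w : ℝ) < x)).card

theorem occ_eq (π w : List Dir) : oc (fun u => u = π) w = Occ π w := by
  unfold oc pl Occ
  congr 1
  ext i
  simp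

theorem have_of {Q : List Dir → Prop} (hQ : KClass Q) (hc : CSum Q) {π : List Dir}
    (hπ0 : π ≠ []) (h : Occurs Q π) : Have Q [π] := by
  rcases h with ⟨w, h1, h2, h3, h4⟩ | ⟨v, h1, h2, h3, h4⟩
  · exact have_long hQ hc h1 h2 hπ0 h3 h4
  · exact have_one hQ hc ⟨h1, h3⟩ h2 hπ0 h4

theorem few_mono (Q : List Dir → Prop) (π : List Dir) {x y : ℝ} (h : x ≤ y) (n : ℕ) :
    few Q π x n ≤ few Q π y n := by
  unfold few
  apply card_le_card
  intro w hw
  rw [mem_filter] at hw ⊢
  exact ⟨hw.1, hw.2.trans_le h⟩

theorem few_le (Q : List Dir → Prop) (π : List Dir) (x : ℝ) (n : ℕ) : few Q π x n ≤ a Q n :=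
  card_filter_le _ _

/-- Let `π` be a nonempty word.

(1) If `Q` is a class of knot types closed under connected sums (for instance the unknot) and `π`
occurs in a polygon of class `Q` longer than `(2 |π| + 1) ^ 3` (or in the rest of a polygon of class
`Q` with an edge in a face of its bounding box), then for some `c > 0` and all large even `n` the
number of the words of length `n` and class `Q` with less than `c n ^ (2 / 3)` occurrences of `π` is
at most `exp (-c n ^ (2 / 3))` times the number of all words of length `n` and class `Q`.  So the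
number of the words without `π` has a smaller growth rate than `gr Q` if it is at least
`n ^ (-D) μ ^ n` for infinitely many `n` with its growth rate `μ`, for instance if it has an
asymptotic form `A n ^ s μ ^ n`.

(2) Let `Q` be any nonempty class of knot types, for instance one knot type, and let `π` occur in an
unknotted polygon longer than `(2 |π| + 1) ^ 3` (or in the rest of an unknotted polygon with an edge
in a face of its bounding box).  Then for some `c, δ > 0`: the conclusion of (1) holds for all large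
even `n` at which `p_n (Q) ≥ ((1 - δ) gr Q) ^ n`; for all large even `n` the number of the words with
less than `c n ^ (2 / 3)` occurrences of `π` is at most `exp (-c n ^ (2 / 3)) (a Q n + gr Q ^ n)`; and
the conclusion of (1) holds for all large even `n` if `p_n (Q)` has the asymptotic form
`A n ^ (α - 3) gr Q ^ n`, `A > 0`.

(3) The classes to which this applies. -/
theorem result :
    (∀ Q : List Dir → Prop, KClass Q → CSum Q → ∀ π : List Dir, π ≠ [] → Occurs Q π →
      (∃ c : ℝ, 0 < c ∧ ∀ᶠ j : ℕ in atTop,
        (few Q π (c * (2 * j : ℝ) ^ (2 / 3 : ℝ)) (2 * j) : ℝ) ≤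
          Real.exp (-(c * (2 * j : ℝ) ^ (2 / 3 : ℝ))) * a Q (2 * j)) ∧
      ∀ D μ : ℝ, (∃ᶠ j : ℕ in atTop, μ ^ (2 * j) ≤ (2 * j : ℝ) ^ D * few Q π 1 (2 * j)) →
        μ < gr Q) ∧
    (∀ Q : List Dir → Prop, KClass Q → (∃ w, SAP w ∧ Q w) → ∀ π : List Dir, π ≠ [] →
      Occurs U π → ∃ c δ : ℝ, 0 < c ∧ 0 < δ ∧ δ < 1 ∧
        (∀ᶠ j : ℕ in atTop, ((1 - δ) * gr Q) ^ (2 * j) ≤ pq Q (2 * j) →
          (few Q π (c * (2 * j : ℝ) ^ (2 / 3 : ℝ)) (2 * j) : ℝ) ≤
            Real.exp (-(c * (2 * j : ℝ) ^ (2 / 3 : ℝ))) * a Q (2 * j)) ∧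
        (∀ᶠ j : ℕ in atTop, (few Q π (c * (2 * j : ℝ) ^ (2 / 3 : ℝ)) (2 * j) : ℝ) ≤
          Real.exp (-(c * (2 * j : ℝ) ^ (2 / 3 : ℝ))) * (a Q (2 * j) + gr Q ^ (2 * j))) ∧
        ∀ A α : ℝ, 0 < A →
          Tendsto (fun j : ℕ => pq Q (2 * j) / ((2 * j : ℝ) ^ (α - 3) * gr Q ^ (2 * j))) atTop
            (𝓝 A) →
          ∀ᶠ j : ℕ in atTop, (few Q π (c * (2 * j : ℝ) ^ (2 / 3 : ℝ)) (2 * j) : ℝ) ≤
            Real.exp (-(c * (2 * j : ℝ) ^ (2 / 3 : ℝ))) * a Q (2 * j)) ∧
    (∀ k : List V, KClass (KT k)) ∧ KClass U ∧ CSum U ∧ ∃ w, SAP w ∧ U w := by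
  have hU : KClass U := GEN.kt_class sq
  refine ⟨?_, ?_, GEN.kt_class, hU, GEN.u_csum, ⟨sqw, c_sq.2.1, Or.inl (Same.refl _)⟩⟩
  · intro Q hQ hc π hπ0 hπ
    have hne : ∃ w, SAP w ∧ Q w := by
      rcases hπ with ⟨w, h1, h2, -, -⟩ | ⟨v, h1, h2, -, -⟩
      · exact ⟨w, h1, h2⟩
      · exact ⟨_, h1, h2⟩
    obtain ⟨c, hc0, H⟩ := pat (Q := Q) hQ hc hπ0 (have_of hQ hc hπ0 hπ)
      (fun x h1 h2 => inc_csum hQ hc h1 h2) (shift_csum hQ hne hc)
    have H' : ∀ᶠ j : ℕ in atTop,
        (few Q π (c * (2 * j : ℝ) ^ (2 / 3 : ℝ)) (2 * j) : ℝ) ≤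
          Real.exp (-(c * (2 * j : ℝ) ^ (2 / 3 : ℝ))) * a Q (2 * j) := by
      filter_upwards [H] with j hj
      have h1 := hj trivial
      simp only [occ_eq] at h1
      unfold few
      exact h1
    refine ⟨⟨c, hc0, H'⟩, fun D μ hD => ?_⟩
    have ht : Tendsto (fun j : ℕ => c * (2 * j : ℝ) ^ (2 / 3 : ℝ)) atTop atTop := by
      apply Tendsto.const_mul_atTop hc0
      refine (tendsto_rpow_atTop (by norm_num)).comp ?_
      exact Tendsto.const_mul_atTop (by norm_num) tendsto_natCast_atTop_atTop
    refine rare_lt hQ hne hc (b := fun n => (few Q π 1 n : ℝ)) hc0 ?_ D μ hD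
    filter_upwards [H', ht.eventually_ge_atTop 1] with j h1 h2
    have h3 : (few Q π 1 (2 * j) : ℝ) ≤ few Q π (c * (2 * j : ℝ) ^ (2 / 3 : ℝ)) (2 * j) := by
      exact_mod_cast few_mono Q π h2 (2 * j)
    exact h3.trans h1
  · intro Q hQ hne π hπ0 hπ
    obtain ⟨hg1, -, -⟩ := gr_bounds Q hQ hne
    have hg : 0 < gr Q := by linarith
    obtain ⟨δ, hδ0, hδ1, hsh⟩ := shift_good hQ hne
    obtain ⟨c, hc0, H⟩ := pat (Q := Q) hU GEN.u_csum hπ0 (have_of hU GEN.u_csum hπ0 hπ)
      (fun x h1 h2 => inc_unknot hQ h2) hsh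
    have H' : ∀ᶠ j : ℕ in atTop, ((1 - δ) * gr Q) ^ (2 * j) ≤ pq Q (2 * j) →
        (few Q π (c * (2 * j : ℝ) ^ (2 / 3 : ℝ)) (2 * j) : ℝ) ≤
          Real.exp (-(c * (2 * j : ℝ) ^ (2 / 3 : ℝ))) * a Q (2 * j) := by
      filter_upwards [H] with j hj hgood
      have h1 := hj hgood
      simp only [occ_eq] at h1
      unfold few
      exact h1
    refine ⟨c, δ, hc0, hδ0, hδ1, H', ?_, ?_⟩
    · filter_upwards [H', not_good hg hδ0 hδ1 c] with j h1 h2
      have hp : 0 < gr Q ^ (2 * j) := pow_pos hg _
      have ha : (0 : ℝ) ≤ a Q (2 * j) := Nat.cast_nonneg _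
      have he := Real.exp_pos (-(c * (2 * j : ℝ) ^ (2 / 3 : ℝ)))
      by_cases hgood : ((1 - δ) * gr Q) ^ (2 * j) ≤ pq Q (2 * j)
      · refine (h1 hgood).trans (mul_le_mul_of_nonneg_left ?_ he.le)
        linarith
      · have h3 : (few Q π (c * (2 * j : ℝ) ^ (2 / 3 : ℝ)) (2 * j) : ℝ) ≤ a Q (2 * j) := by
          exact_mod_cast few_le Q π _ (2 * j)
        refine h3.trans ((h2 hgood).trans (mul_le_mul_of_nonneg_left ?_ he.le))
        linarith
    · intro A α hA h
      filter_upwards [H', form_good hg hδ0 hδ1 hA h] with j h1 h2 using h1 h2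

end Pool.Agent.Results.MP_aea6d5_co.KestenPatterns
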