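import Pool.Agent.L5helper43.KM.Cls
import Pool.Agent.L5helper86.KB.Tre

/-!
# Lattice knots: many summands, and the proportion of a knot type in a class closed under sums

Part 1: adding `N` summands from a finite set of knots to any knot type `k` gains a factor
`(c n ^ (2 / 3)) ^ N / N!`, uniformly in `N ≤ c n ^ (2 / 3)`.  Part 2: so in every class of knot types
which is closed under connected sums (and contains a nontrivial knot) every single knot type `k` has
a proportion of at most `exp (-c n ^ (2 / 3))`; and if the asymptotic form of Q1 holds for `k`, then the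
growth rate of `k` is strictly smaller than the one of the class.

Proof.  The local knots are inserted at contacts of the polygon with its outside, of which there are
at least `c n ^ (2 / 3)` (starting files `H246K2`, `H246K3`); a bounded number of them is lost near every
block.  The places of the blocks in two decompositions of a polygon overlap, up to a number of them
that depends on `k` only (`L5helper86/KB`, lemma `few`); hence the multiplicity is at most
`C ^ N N!`.  Part 2 takes `N` of the order `n ^ (2 / 3)`; the additional length costs `C ^ N` (ratio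
limit theorem for classes closed under connected sums).
-/

set_option autoImplicit false

namespace Pool.Agent.Results.MP_aea6d5_co.ManySummands

open Filter Topology KN KNB KNM

/-- for some `m`, the knot `k` is not a connected sum of a lattice knot and `m` copies of `κ` -/
def Few (k κ : List V) : Prop := ∃ m : ℕ, ∀ k' : List V, (∃ w, SAP w ∧ Same (vl w) k') →
  ¬ SumQ k' (fun _ => κ) m k

/-- the class of knot types generated by the polygons in `S` with connected sums: the smallest
class of (unoriented) knot types that is closed under connected sums and contains `S` -/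
def Gen (S : List Dir → Prop) (w : List Dir) : Prop :=
  ∀ Q : List Dir → Prop, KClass Q → CSum Q → (∀ u, SAP u → S u → Q u) → Q w

/-- (1) Let `k` be a lattice knot type and `F` a finite set of lattice knot types, each of which is
a summand of `k` only finitely often (`Few`).  There are `c > 0`, `M`, `n₀` such that for all `N`
knots `ks 0, ..., ks (N - 1)` in `F` there is an even `m ≤ M * N` such that the connected sum `l` of
`k` and `ks 0, ..., ks (N - 1)` satisfies
`p_(n + m) (l) ≥ (c n ^ (2 / 3)) ^ N / N! * p_n (k)` for all `n ≥ n₀` with `N ≤ c n ^ (2 / 3)`.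

(2) Let `Q` be a class of knot types which is closed under connected sums, and `k`, `κ` knot types in
`Q` with `Few k κ`.  Then `p_n (k) ≤ exp (-c n ^ (2 / 3)) p_n (Q)` and
`p_n (k) ≤ exp (-c n ^ (2 / 3)) gr (Q) ^ n` for some `c > 0` and all large even `n`.  So if `p_n (k)` is
at least `n ^ (-D) μ ^ n` for infinitely many even `n`, or if it has the asymptotic form
`A n ^ (α - 3) μ ^ n` (along the even `n`, `A > 0`), then `μ < gr Q`.

(3) `Few k κ` holds for every lattice knot `k` if the group of `κ` has a finite non-commutative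
quotient (for instance for a trefoil), and for the unknot `k` if the group of `κ` is not
commutative.  The generated classes `Gen S` are classes of knot types and closed under connected
sums. -/
theorem result :
    (∀ k : List V, (∃ w, SAP w ∧ Same (vl w) k) → ∀ F : Finset (List V),
      (∀ κ ∈ F, (∃ w, SAP w ∧ Same (vl w) κ) ∧ Few k κ) →
      ∃ (c : ℝ) (M n₀ : ℕ), 0 < c ∧ ∀ (ks : ℕ → List V) (N : ℕ), (∀ i < N, ks i ∈ F) →
        (∃ w, SAP w ∧ SumQ k ks N (vl w)) ∧
        ∃ m : ℕ, Even m ∧ m ≤ M * N ∧ ∀ l : List V, SumQ k ks N l → ∀ n ≥ n₀,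
          (N : ℝ) ≤ c * (n : ℝ) ^ (2 / 3 : ℝ) →
          (c * (n : ℝ) ^ (2 / 3 : ℝ)) ^ N / N.factorial * pq (KT k) n ≤ pq (KT l) (n + m)) ∧
    (∀ Q : List Dir → Prop, KClass Q → CSum Q → ∀ k κ : List V,
      (∃ w, SAP w ∧ Q w ∧ Same (vl w) k) → (∃ w, SAP w ∧ Q w ∧ Same (vl w) κ) → Few k κ →
      (∃ c : ℝ, 0 < c ∧ ∀ᶠ j : ℕ in atTop,
        pq (KT k) (2 * j) ≤ Real.exp (-(c * (2 * j : ℝ) ^ (2 / 3 : ℝ))) * pq Q (2 * j) ∧
        pq (KT k) (2 * j) ≤
          Real.exp (-(c * (2 * j : ℝ) ^ (2 / 3 : ℝ))) * gr Q ^ (2 * j)) ∧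
      (∀ D μ : ℝ, (∃ᶠ j : ℕ in atTop, μ ^ (2 * j) ≤ (2 * j : ℝ) ^ D * pq (KT k) (2 * j)) →
        μ < gr Q) ∧
      ∀ A α μ : ℝ, 0 < A → 0 < μ →
        Tendsto (fun j : ℕ => pq (KT k) (2 * j) / ((2 * j : ℝ) ^ (α - 3) * μ ^ (2 * j))) atTop
          (𝓝 A) → μ < gr Q) ∧
    (∀ κ : List V, (FQ κ → ∀ k : List V, (∃ w, SAP w ∧ Same (vl w) k) → Few k κ) ∧
      (NCG κ → Few sq κ)) ∧
    (∃ w, SAP w ∧ FQ (vl w)) ∧
    ∀ S : List Dir → Prop, KClass (Gen S) ∧ CSum (Gen S) ∧ ∀ w, SAP w → S w → Gen S w := by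
  refine ⟨?_, ?_, ?_, ⟨.zm :: v0, K3XTRE.sap_tre, fq_tre⟩, ?_⟩
  · intro k hk F hF
    obtain ⟨c, M, n0, hc, H⟩ := main_g k F (fun κ hκ => ⟨(hF κ hκ).2, (hF κ hκ).1⟩)
    refine ⟨c, M, n0, hc, fun ks N hks => ⟨sume hk N (fun i hi => (hF _ (hks i hi)).1), ?_⟩⟩
    obtain ⟨m, h1, h2, h3⟩ := H ks N hks
    exact ⟨m, h1, h2, fun l hl n hn hN => (h3 n hn hN l hl).2⟩
  · rintro Q hQ hc k κ ⟨wk, hwk, hQk, hk⟩ ⟨w0, hw0, hQ0, h0⟩ hfin
    have hne : ∃ w, SAP w ∧ Q w := ⟨wk, hwk, hQk⟩
    obtain ⟨c, hc0, H⟩ := class_exp Q hQ hc hwk hQk hk hw0 hQ0 h0 hfin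
    have H2 := class_up Q hQ hne hc hc0 H
    obtain ⟨h1, -, -⟩ := gr_bounds Q hQ hne
    have hlt := class_lt Q (k := k) (half_pos hc0) (by linarith) H2
    refine ⟨⟨c / 2, half_pos hc0, ?_⟩, hlt, ?_⟩
    · filter_upwards [H, H2] with j h3 h4
      refine ⟨?_, h4⟩
      have hQj : 0 ≤ pq Q (2 * j) := by unfold pq; positivity
      have h5 : pq (KT k) (2 * j) ≤
          Real.exp (-(c * (2 * j : ℝ) ^ (2 / 3 : ℝ))) * pq Q (2 * j) := by
        rw [Real.exp_neg, ← div_eq_inv_mul, le_div_iff₀ (Real.exp_pos _), mul_comm]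
        exact h3
      refine h5.trans (mul_le_mul_of_nonneg_right (Real.exp_le_exp.2 ?_) hQj)
      have h6 : (0 : ℝ) ≤ (2 * j : ℝ) ^ (2 / 3 : ℝ) := by positivity
      nlinarith
    · intro A α μ hA hμ h
      obtain ⟨D, hD⟩ := form_low hA hμ h
      exact hlt D μ hD
  · intro κ
    exact ⟨fun h k hk => fin1_of hk h, fun h => fin1_unknot (ncg_ninv κ h)⟩
  · intro S
    refine ⟨⟨fun w w' hw hw' h h1 Q hQ hc hS => ?_, fun w w' hw hw' h h1 Q hQ hc hS => ?_⟩,
      fun l1 v l2 hF h1 h2 Q hQ hc hS => ?_, fun w hw hS Q hQ hc h => h w hw hS⟩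
    · exact hQ.same w w' hw hw' h (h1 Q hQ hc hS)
    · exact hQ.rev w w' hw hw' h (h1 Q hQ hc hS)
    · exact hc l1 v l2 hF (h1 Q hQ hc hS) (h2 Q hQ hc hS)

end Pool.Agent.Results.MP_aea6d5_co.ManySummands
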