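import Pool.Agent.L5helper86.KB.Tre
import Pool.Agent.L5helper86.KB.Expo

/-!
# Lattice knots: adding `N` summands to an arbitrary knot type gains a factor `n ^ (2 N / 3)`
-/

set_option autoImplicit false

namespace Pool.Agent.Results.MP_aea6d5_co.SummandsOverAnyKnot

open Filter Topology KN KNB

/-- Let `k` be any lattice knot type and `ks 0, ..., ks (N - 1)` lattice knot types such that, for
every `i`, the group of `ks i` has a finite non-commutative quotient, or `k` is, for some `m`, not a
connected sum of a lattice knot and `m` copies of `ks i`. Then, for the connected sum `l` of `k` and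
`ks 0, ..., ks (N - 1)`, there are `c > 0` and an even `m` such that the number of polygons of
length `n + m` and type `l` is at least `c * n ^ (2 N / 3)` times the number of polygons of length
`n` and type `k`, for all large `n`. If both numbers have an asymptotic form (along the even
lengths) then the growth rate of `l` is larger, or it is the same and the exponent of `l` is at
least the one of `k` plus `2 N / 3`. The connected sums exist and are unique, and there is a lattice
knot whose group has a finite non-commutative quotient (the trefoil). -/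
theorem result : (∃ w, SAP w ∧ FQ (vl w)) ∧
    ∀ k : List V, (∃ w, SAP w ∧ Same (vl w) k) → ∀ (ks : ℕ → List V) (N : ℕ),
      (∀ i < N, ∃ w, SAP w ∧ Same (vl w) (ks i)) →
      (∀ i < N, FQ (ks i) ∨ ∃ m : ℕ, ∀ k' : List V, (∃ w, SAP w ∧ Same (vl w) k') →
        ¬ SumQ k' (fun _ => ks i) m k) →
      (∃ w, SAP w ∧ SumQ k ks N (vl w)) ∧
      (∀ l l' : List V, SumQ k ks N l → SumQ k ks N l' → Same l l') ∧
      ∀ l : List V, SumQ k ks N l →
        (∃ (c : ℝ) (m : ℕ), 0 < c ∧ Even m ∧ ∀ᶠ n : ℕ in atTop,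
          c * (n : ℝ) ^ (2 * N / 3 : ℝ) * pq (KT k) n ≤ pq (KT l) (n + m)) ∧
        ∀ A A' α α' μ μ' : ℝ, 0 < A → 0 < A' → 0 < μ → 0 < μ' →
          Tendsto (fun j : ℕ => pq (KT k) (2 * j) / ((2 * j : ℝ) ^ (α - 3) * μ ^ (2 * j))) atTop
            (𝓝 A) →
          Tendsto (fun j : ℕ => pq (KT l) (2 * j) / ((2 * j : ℝ) ^ (α' - 3) * μ' ^ (2 * j)))
            atTop (𝓝 A') →
          μ < μ' ∨ (μ = μ' ∧ α + 2 * N / 3 ≤ α') := by
  refine ⟨⟨.zm :: v0, K3XTRE.sap_tre, fq_tre⟩, fun k hk ks N hex hq => ?_⟩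
  have hfin : ∀ i < N, Fin1 k (ks i) := fun i hi => (hq i hi).elim (fun h => fin1_of hk h) id
  refine ⟨sume hk N hex, fun l l' h h' => sumu N l l' h h', fun l hl => ?_⟩
  obtain ⟨c, m, hc, hm, h⟩ := main3 N hfin hex l hl
  refine ⟨⟨c, m, hc, hm, h⟩, ?_⟩
  intro A A' α α' μ μ' hA hA' hμ hμ' hx hy
  obtain ⟨r, rfl⟩ : ∃ r, m = 2 * r := by
    obtain ⟨r, hr⟩ := hm
    exact ⟨r, by omega⟩
  refine expo (x := pq (KT k)) (y := pq (KT l)) r hc hA hA' hμ hμ' ?_ hx hy
  have h2 : Tendsto (fun j : ℕ => 2 * j) atTop atTop :=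
    tendsto_id.const_mul_atTop' (by norm_num)
  filter_upwards [h2.eventually h] with j hj
  have e : 2 * (j + r) = 2 * j + 2 * r := by ring
  rw [e]
  push_cast at hj
  exact hj

end Pool.Agent.Results.MP_aea6d5_co.SummandsOverAnyKnot
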