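import Pool.Agent.L5helper76.PT.Top
import Pool.Agent.L5helper86.KB.Tre

/-!
# Lattice knots: the typical number of summands in a class closed under connected sums

Let `Q` be a class of knot types closed under connected sums and `κ` a knot type in `Q`.  All but a
fraction `exp (-c n ^ (2 / 3))` of the polygons of length `n` and class `Q` are connected sums of a
lattice knot and at least `c n ^ (2 / 3)` copies of `κ`.  So prime knots are rare in every such class.

Proof.  `N` copies of `κ` are inserted at contacts of the polygon with its outside; there are at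
least `c n ^ (2 / 3)` of them (starting files `H246K2`, `H246K3`, `L5helper86/KB`, `L5helper43/KM`).  The
constants do not depend on the knot type of the polygon.  If the polygon is no sum with `r` copies of
`κ` then the places of the blocks in all decompositions of the result lie in `O (N + r)` windows
(`L5helper86/KB`, lemma `few`; the decompositions may have polygons of different knot types as
bases), so the multiplicity is at most `(C (N + r)) ^ N`.  This is done for all polygons with less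
than `N` summands `κ` at once, with `N` of the order `n ^ (2 / 3)`; the additional length costs `C ^ N`
(ratio limit theorem for classes closed under connected sums).
-/

set_option autoImplicit false

namespace Pool.Agent.Results.MP_aea6d5_co.TypicalSummands

open Finset Filter Topology KN KNB KNM PTK

/-- the number of closed self-avoiding words of length `n` of class `Q` with the property `E` -/
noncomputable def num (Q E : List Dir → Prop) (n : ℕ) : ℕ := a (fun w => Q w ∧ E w) n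

/-- prime or trivial: the polygon `w` has not the type of a connected sum of two nontrivial knots -/
def Irr (w : List Dir) : Prop := ∀ l1 v l2 : List Dir, Facing l1 v l2 →
  Same (vl w) (vl (KN.join l1 v l2)) → U (l1 ++ .zp :: l2) ∨ U (.zm :: v)

/-- the class of knot types generated by the polygons in `S` with connected sums -/
def Gen (S : List Dir → Prop) (w : List Dir) : Prop :=
  ∀ Q : List Dir → Prop, KClass Q → CSum Q → (∀ u, SAP u → S u → Q u) → Q w

/-- a sum with two copies of a knot without inverse is not prime -/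
theorem not_irr {κ : List V} (h : NonInv κ) {w : List Dir} (hw : Has κ 2 (vl w)) : ¬ Irr w := by
  obtain ⟨k', -, l1, v, l2, hF, ⟨m1, v', m2, hF', -, h3', h4'⟩, h3, h4⟩ := hw
  intro hI
  rcases hI l1 v l2 hF h4 with h5 | h5
  · refine h m1 v' m2 hF' h3' ?_
    exact Or.inl (h4'.symm.trans (GEN.u_same h5))
  · exact ninv_not_u h hF.2.2.1 hF.2.2.2 h3 h5

theorem uni (κ : List V) (hκ : ∃ w, SAP w ∧ Same (vl w) κ) :
    ∃ (c : ℝ) (β n0 : ℕ), 0 < c ∧ Even β ∧ ∀ n ≥ n0, ∀ r N : ℕ,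
      ((max r N : ℕ) : ℝ) ≤ c * (n : ℝ) ^ (2 / 3 : ℝ) →
      (∀ G : Finset (List Dir), (∀ w ∈ G, SAP w ∧ w.length = n ∧ ¬ Has κ r (vl w)) →
        (c * (n : ℝ) ^ (2 / 3 : ℝ) / ((r + N : ℕ) : ℝ)) ^ N * G.card ≤
          a (fun u => ∃ w ∈ G, SumQ (vl w) (fun _ => κ) N (vl u)) (n + β * N)) ∧
      ∀ k l : List V, ¬ Has κ r k → SumQ k (fun _ => κ) N l →
        (c * (n : ℝ) ^ (2 / 3 : ℝ) / ((r + N : ℕ) : ℝ)) ^ N * pq (KT k) n ≤
          pq (KT l) (n + β * N) := by
  obtain ⟨c, C, β, n0, hc, hβ, H⟩ := mainB κ hκ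
  obtain ⟨n1, hn1⟩ := eventually_atTop.1 (pow_small ((β : ℝ) * c) one_pos)
  obtain ⟨c', hc'd⟩ : ∃ c' : ℝ, c' = c / (4 * (C + 1)) := ⟨_, rfl⟩
  have hc'0 : 0 < c' := by rw [hc'd]; positivity
  have hc'1 : c' ≤ c := by
    rw [hc'd]
    apply div_le_self hc.le
    have : (0 : ℝ) ≤ C := Nat.cast_nonneg _
    linarith
  refine ⟨c', β, max (max n0 n1) 1, hc'0, Nat.even_iff.2 hβ, ?_⟩
  intro n hn r N hrN
  have hnn0 : n0 ≤ n := ((le_max_left _ _).trans (le_max_left _ _)).trans hn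
  have hnn1 := hn1 n (((le_max_right _ _).trans (le_max_left _ _)).trans hn)
  have hnp : 0 < n := (le_max_right _ _).trans hn
  have hn' : (0 : ℝ) < n := by exact_mod_cast hnp
  obtain ⟨x, hx⟩ : ∃ x : ℝ, x = (n : ℝ) ^ (2 / 3 : ℝ) := ⟨_, rfl⟩
  have hx0 : 0 < x := by rw [hx]; positivity
  rw [← hx] at hrN hnn1 ⊢
  have hmx : ((max r N : ℕ) : ℝ) ≤ c * x := hrN.trans (mul_le_mul_of_nonneg_right hc'1 hx0.le)
  have hr : (r : ℝ) ≤ c * x := by
    refine le_trans ?_ hmx
    exact_mod_cast le_max_left r N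
  have hN : (N : ℝ) ≤ c * x := by
    refine le_trans ?_ hmx
    exact_mod_cast le_max_right r N
  -- the general inequality with a factor `4 ^ N` to spare
  have key : ∀ G : Finset (List Dir), (∀ w ∈ G, SAP w ∧ w.length = n ∧ ¬ Has κ r (vl w)) →
      4 ^ N * ((c' * x / ((r + N : ℕ) : ℝ)) ^ N * G.card) ≤
        a (fun u => ∃ w ∈ G, SumQ (vl w) (fun _ => κ) N (vl u)) (n + β * N) := by
    intro G hG
    have h1 := H n hnn0 r N G (by rw [← hx]; exact hN) (by rw [← hx]; exact hr) hG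
    rw [← hx] at h1
    rcases Nat.eq_zero_or_pos N with h0 | h0
    · subst h0
      simpa using h1
    have hrN0 : (0 : ℝ) < ((r + N : ℕ) : ℝ) := by exact_mod_cast (show 0 < r + N by omega)
    have ha : (0 : ℝ) ≤ a (fun u => ∃ w ∈ G, SumQ (vl w) (fun _ => κ) N (vl u)) (n + β * N) :=
      Nat.cast_nonneg _
    have h2 : ((C * (r + N) : ℕ) : ℝ) ^ N ≤ (((C : ℝ) + 1) * ((r + N : ℕ) : ℝ)) ^ N := by
      apply pow_le_pow_left₀ (Nat.cast_nonneg _)
      rw [Nat.cast_mul]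
      nlinarith
    have hpos : (0 : ℝ) < (((C : ℝ) + 1) * ((r + N : ℕ) : ℝ)) ^ N := by positivity
    refine le_of_mul_le_mul_left ?_ hpos
    calc (((C : ℝ) + 1) * ((r + N : ℕ) : ℝ)) ^ N *
          (4 ^ N * ((c' * x / ((r + N : ℕ) : ℝ)) ^ N * G.card))
        = (c * x) ^ N * G.card := by
          rw [← mul_assoc, ← mul_assoc, ← mul_pow, ← mul_pow, hc'd]
          congr 2
          field_simp
      _ ≤ ((C * (r + N) : ℕ) : ℝ) ^ N * _ := h1
      _ ≤ _ := mul_le_mul_of_nonneg_right h2 ha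
  refine ⟨?_, ?_⟩
  · intro G hG
    have h1 := key G hG
    refine le_trans ?_ h1
    have h3 : (0 : ℝ) ≤ (c' * x / ((r + N : ℕ) : ℝ)) ^ N * G.card := by positivity
    have h4 : (1 : ℝ) ≤ 4 ^ N := one_le_pow₀ (by norm_num)
    nlinarith
  · intro k l hk hl
    have h1 := key (K (Ok k) n) (by
      intro w hw
      obtain ⟨h1, h2, h3⟩ := mem_K.1 hw
      exact ⟨h2, h1, fun h => hk (has_same h h3)⟩)
    have h2 : a (fun u => ∃ w ∈ K (Ok k) n, SumQ (vl w) (fun _ => κ) N (vl u)) (n + β * N) ≤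
        a (KT l) (n + β * N) := by
      unfold a
      apply Finset.card_le_card
      intro u hu
      obtain ⟨h3, h4, w, hw, h5⟩ := mem_K.1 hu
      refine mem_K.2 ⟨h3, h4, Or.inl ?_⟩
      exact sumu N _ _ (sumQ_base (mem_K.1 hw).2.2 h5) hl
    have h2' : (a (fun u => ∃ w ∈ K (Ok k) n, SumQ (vl w) (fun _ => κ) N (vl u)) (n + β * N) : ℝ) ≤
        a (KT l) (n + β * N) := by exact_mod_cast h2
    have h3 := h1.trans h2'
    have hhalf : (a (KT k) n : ℝ) ≤ 2 * a (Ok k) n := by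
      exact_mod_cast KQ.half S_rot_proof c_rev S_simple_proof k n
    rcases Nat.eq_zero_or_pos N with h0 | h0
    · subst h0
      have h7 : a (KT k) n ≤ a (KT l) n := by
        unfold a
        apply Finset.card_le_card
        intro w hw
        obtain ⟨h1, h2, h3⟩ := mem_K.1 hw
        refine mem_K.2 ⟨h1, h2, ?_⟩
        have hl2 : Same l k := hl
        rcases h3 with h3 | h3
        · exact Or.inl (h3.trans hl2.symm)
        · exact Or.inr (h3.trans ((c_rev _ _).2 hl2.symm))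
      have h8 : (a (KT k) n : ℝ) ≤ a (KT l) n := by exact_mod_cast h7
      unfold pq
      have h9 := div_le_div_of_nonneg_right h8 (show (0 : ℝ) ≤ 2 * n by positivity)
      simpa using h9
    have h4 : (4 : ℝ) ≤ 4 ^ N := by
      calc (4 : ℝ) = 4 ^ 1 := (pow_one _).symm
        _ ≤ 4 ^ N := pow_le_pow_right₀ (by norm_num) h0
    obtain ⟨q, hq⟩ : ∃ q : ℝ, q = (c' * x / ((r + N : ℕ) : ℝ)) ^ N := ⟨_, rfl⟩
    have hq0 : 0 ≤ q := by rw [hq]; positivity
    rw [← hq] at h3 ⊢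
    have h3' : 4 ^ N * (q * (a (Ok k) n : ℝ)) ≤ a (KT l) (n + β * N) := h3
    have hOk : (0 : ℝ) ≤ a (Ok k) n := Nat.cast_nonneg _
    have h5 : 4 * (q * (a (Ok k) n : ℝ)) ≤ a (KT l) (n + β * N) :=
      (mul_le_mul_of_nonneg_right h4 (mul_nonneg hq0 hOk)).trans h3'
    have h6 : q * (a (KT k) n : ℝ) ≤ (a (KT l) (n + β * N) : ℝ) / 2 := by
      have := mul_le_mul_of_nonneg_left hhalf hq0
      linarith
    have hmn : n + β * N ≤ 2 * n := by
      have h8 : (β : ℝ) * N ≤ n := by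
        have := mul_le_mul_of_nonneg_left hN (Nat.cast_nonneg β : (0 : ℝ) ≤ β)
        linarith
      have h9 : β * N ≤ n := by exact_mod_cast h8
      omega
    have hmn' : ((n + β * N : ℕ) : ℝ) ≤ 2 * n := by exact_mod_cast hmn
    have hnm0 : (0 : ℝ) < ((n + β * N : ℕ) : ℝ) := by
      have : 0 < n + β * N := by omega
      exact_mod_cast this
    have hKl : (0 : ℝ) ≤ a (KT l) (n + β * N) := Nat.cast_nonneg _
    unfold pq
    rw [mul_div_assoc']
    calc q * a (KT k) n / (2 * n)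
        ≤ ((a (KT l) (n + β * N) : ℝ) / 2) / (2 * n) :=
          div_le_div_of_nonneg_right h6 (by positivity)
      _ = (a (KT l) (n + β * N) : ℝ) / (2 * (2 * n)) := by rw [div_div]
      _ ≤ (a (KT l) (n + β * N) : ℝ) / (2 * ((n + β * N : ℕ) : ℝ)) := by gcongr

theorem tend_y {c : ℝ} (hc : 0 < c) :
    Tendsto (fun j : ℕ => c * (2 * j : ℝ) ^ (2 / 3 : ℝ)) atTop atTop := by
  apply Tendsto.const_mul_atTop hc
  refine (tendsto_rpow_atTop (by norm_num)).comp ?_
  exact Tendsto.const_mul_atTop (by norm_num) tendsto_natCast_atTop_atTop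

theorem typ_sum' {Q : List Dir → Prop} {κ : List V} (hQ : KClass Q) (hc : CSum Q)
    {w0 : List Dir} (hw0 : SAP w0) (hQ0 : Q w0) (h0 : Same (vl w0) κ) :
    ∃ c : ℝ, 0 < c ∧ ∀ᶠ j : ℕ in atTop,
      (num Q (fun w => ¬ Has κ ⌈c * (2 * j : ℝ) ^ (2 / 3 : ℝ)⌉₊ (vl w)) (2 * j) : ℝ) ≤
        Real.exp (-(c * (2 * j : ℝ) ^ (2 / 3 : ℝ))) * a Q (2 * j) := by
  obtain ⟨c, hc0, H⟩ := typ_sum (Q := Q) (κ := κ) ⟨w0, hw0, h0⟩ (inc_sum hQ hc hw0 hQ0 h0)
    (shift_csum hQ ⟨w0, hw0, hQ0⟩ hc)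
  refine ⟨c, hc0, ?_⟩
  filter_upwards [H] with j hj
  refine le_trans ?_ (hj trivial)
  unfold num a
  refine Nat.cast_le.2 (card_le_card ?_)
  intro w hw
  obtain ⟨h1, h2, h3, h4⟩ := mem_K.1 hw
  classical
  exact Finset.mem_filter.2 ⟨mem_K.2 ⟨h1, h2, h3⟩, h4⟩

/-- finitely many knots at once -/
theorem fin_typ {Q : List Dir → Prop} (hQ : KClass Q) (hc : CSum Q)
    (F : Finset (List V)) (hF : ∀ κ ∈ F, ∃ w, SAP w ∧ Q w ∧ Same (vl w) κ) :
    ∃ c : ℝ, 0 < c ∧ ∀ᶠ j : ℕ in atTop,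
      (num Q (fun w => ∃ κ ∈ F, ¬ Has κ ⌈c * (2 * j : ℝ) ^ (2 / 3 : ℝ)⌉₊ (vl w)) (2 * j) : ℝ) ≤
        Real.exp (-(c * (2 * j : ℝ) ^ (2 / 3 : ℝ))) * a Q (2 * j) := by
  classical
  induction F using Finset.induction_on with
  | empty =>
    refine ⟨1, one_pos, Eventually.of_forall fun j => ?_⟩
    have h : num Q (fun w => ∃ κ ∈ (∅ : Finset (List V)),
        ¬ Has κ ⌈(1 : ℝ) * (2 * j : ℝ) ^ (2 / 3 : ℝ)⌉₊ (vl w)) (2 * j) = 0 := by
      unfold num a
      rw [Finset.card_eq_zero, Finset.eq_empty_iff_forall_notMem]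
      intro w hw
      obtain ⟨-, -, -, κ, hκ, -⟩ := mem_K.1 hw
      simp at hκ
    rw [h, Nat.cast_zero]
    positivity
  | insert κ F hκF ih =>
    obtain ⟨c1, hc1, H1⟩ := ih (fun κ' h => hF κ' (mem_insert_of_mem h))
    obtain ⟨w0, hw0, hQ0, h0⟩ := hF κ (mem_insert_self _ _)
    obtain ⟨c2, hc2, H2⟩ := typ_sum' hQ hc hw0 hQ0 h0
    obtain ⟨c, hcd⟩ : ∃ c : ℝ, c = min c1 c2 / 2 := ⟨_, rfl⟩
    have hc0 : 0 < c := by rw [hcd]; exact half_pos (lt_min hc1 hc2)
    have hcc1 : 2 * c ≤ c1 := by rw [hcd]; linarith [min_le_left c1 c2]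
    have hcc2 : 2 * c ≤ c2 := by rw [hcd]; linarith [min_le_right c1 c2]
    refine ⟨c, hc0, ?_⟩
    filter_upwards [H1, H2, (tend_y hc0).eventually_ge_atTop 1] with j h1 h2 h3
    obtain ⟨y, hy⟩ : ∃ y : ℝ, y = (2 * j : ℝ) ^ (2 / 3 : ℝ) := ⟨_, rfl⟩
    have hy0 : 0 ≤ y := by rw [hy]; positivity
    rw [← hy] at h1 h2 h3 ⊢
    have hle1 : ⌈c * y⌉₊ ≤ ⌈c1 * y⌉₊ := Nat.ceil_le_ceil (by nlinarith)
    have hle2 : ⌈c * y⌉₊ ≤ ⌈c2 * y⌉₊ := Nat.ceil_le_ceil (by nlinarith)
    have hsub : num Q (fun w => ∃ κ' ∈ insert κ F, ¬ Has κ' ⌈c * y⌉₊ (vl w)) (2 * j) ≤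
        num Q (fun w => ∃ κ' ∈ F, ¬ Has κ' ⌈c1 * y⌉₊ (vl w)) (2 * j) +
        num Q (fun w => ¬ Has κ ⌈c2 * y⌉₊ (vl w)) (2 * j) := by
      unfold num a
      refine le_trans (card_le_card ?_) (card_union_le _ _)
      intro w hw
      obtain ⟨g1, g2, g3, κ', hκ', hn⟩ := mem_K.1 hw
      rw [mem_union, mem_K, mem_K]
      rcases mem_insert.1 hκ' with rfl | hκ'
      · exact Or.inr ⟨g1, g2, g3, fun h => hn (has_le hle2 h)⟩
      · exact Or.inl ⟨g1, g2, g3, κ', hκ', fun h => hn (has_le hle1 h)⟩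
    have hsub' : (num Q (fun w => ∃ κ' ∈ insert κ F, ¬ Has κ' ⌈c * y⌉₊ (vl w)) (2 * j) : ℝ) ≤
        num Q (fun w => ∃ κ' ∈ F, ¬ Has κ' ⌈c1 * y⌉₊ (vl w)) (2 * j) +
        num Q (fun w => ¬ Has κ ⌈c2 * y⌉₊ (vl w)) (2 * j) := by
      exact_mod_cast hsub
    have ha : (0 : ℝ) ≤ a Q (2 * j) := Nat.cast_nonneg _
    have he : ∀ c' : ℝ, 2 * c ≤ c' → Real.exp (-(c' * y)) ≤ Real.exp (-(c * y)) / 2 := by
      intro c' hc'
      have e1 : Real.exp (-(c' * y)) ≤ Real.exp (-(c * y)) * Real.exp (-(c * y)) := by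
        rw [← Real.exp_add]
        apply Real.exp_le_exp.2
        nlinarith
      have e2 : Real.exp (-(c * y)) ≤ 1 / 2 := by
        rw [Real.exp_neg, ← one_div]
        apply one_div_le_one_div_of_le (by norm_num)
        have := Real.add_one_le_exp (c * y)
        linarith
      have e3 := Real.exp_pos (-(c * y))
      nlinarith
    have g1 := mul_le_mul_of_nonneg_right (he c1 hcc1) ha
    have g2 := mul_le_mul_of_nonneg_right (he c2 hcc2) ha
    linarith

/-- (1) Let `κ` be a lattice knot type.  There are `c > 0`, an even `β` and `n₀`, which depend on `κ`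
only, such that for all `n ≥ n₀` and all `r, N ≤ c n ^ (2 / 3)`: if `G` is a set of polygons of length
`n` none of which is a connected sum of a lattice knot and `r` copies of `κ`, then the number of
polygons of length `n + β N` that are connected sums of a member of `G` and `N` copies of `κ` is at
least `(c n ^ (2 / 3) / (r + N)) ^ N` times the number of elements of `G` (all as closed words); and
`p_(n + β N) (l) ≥ (c n ^ (2 / 3) / (r + N)) ^ N p_n (k)` for every knot type `k` that is no connected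
sum of a lattice knot and `r` copies of `κ`, where `l` is the connected sum of `k` and `N` copies
of `κ`.

(2) Let `Q` be a class of knot types closed under connected sums and `F` a finite set of knot types
in `Q`.  For some `c > 0` and all large even `n`, all but a fraction `exp (-c n ^ (2 / 3))` of the
words of length `n` of class `Q` are, for every `κ` in `F`, connected sums of a lattice knot and at
least `c n ^ (2 / 3)` copies of `κ`.

(3) Let `Q` be such a class, `κ` a knot type in `Q`, and `E` a property of polygons such that for all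
`ε > 0` and all large even `n` no polygon of length `n`, class `Q` and property `E` is a connected sum
of a lattice knot and `⌈ε n ^ (2 / 3)⌉` copies of `κ`.  Then the fraction of the words of class `Q`
with property `E` is at most `exp (-c n ^ (2 / 3))`, and `μ < gr Q` if their number is at least
`n ^ (-D) μ ^ n` for infinitely many even `n`.  (4) This applies to the prime (or trivial) knots if
`κ` has no inverse.

(5) A knot has no inverse if its group is not commutative; there is such a lattice knot.  The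
generated classes `Gen S` are classes of knot types and closed under connected sums. -/
theorem result :
    (∀ κ : List V, (∃ w, SAP w ∧ Same (vl w) κ) →
      ∃ (c : ℝ) (β n0 : ℕ), 0 < c ∧ Even β ∧ ∀ n ≥ n0, ∀ r N : ℕ,
        ((max r N : ℕ) : ℝ) ≤ c * (n : ℝ) ^ (2 / 3 : ℝ) →
        (∀ G : Finset (List Dir), (∀ w ∈ G, SAP w ∧ w.length = n ∧ ¬ Has κ r (vl w)) →
          (c * (n : ℝ) ^ (2 / 3 : ℝ) / ((r + N : ℕ) : ℝ)) ^ N * G.card ≤
            a (fun u => ∃ w ∈ G, SumQ (vl w) (fun _ => κ) N (vl u)) (n + β * N)) ∧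
        ∀ k l : List V, ¬ Has κ r k → SumQ k (fun _ => κ) N l →
          (c * (n : ℝ) ^ (2 / 3 : ℝ) / ((r + N : ℕ) : ℝ)) ^ N * pq (KT k) n ≤
            pq (KT l) (n + β * N)) ∧
    (∀ Q : List Dir → Prop, KClass Q → CSum Q → (∃ w, SAP w ∧ Q w) →
      (∀ F : Finset (List V), (∀ κ ∈ F, ∃ w, SAP w ∧ Q w ∧ Same (vl w) κ) →
        ∃ c : ℝ, 0 < c ∧ ∀ᶠ j : ℕ in atTop,
          (num Q (fun w => ∃ κ ∈ F, ¬ Has κ ⌈c * (2 * j : ℝ) ^ (2 / 3 : ℝ)⌉₊ (vl w))
            (2 * j) : ℝ) ≤ Real.exp (-(c * (2 * j : ℝ) ^ (2 / 3 : ℝ))) * a Q (2 * j)) ∧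
      ∀ κ : List V, (∃ w, SAP w ∧ Q w ∧ Same (vl w) κ) →
        (∀ E : List Dir → Prop,
          (∀ ε : ℝ, 0 < ε → ∀ᶠ j : ℕ in atTop, ∀ w ∈ K Q (2 * j), E w →
            ¬ Has κ ⌈ε * (2 * j : ℝ) ^ (2 / 3 : ℝ)⌉₊ (vl w)) →
          (∃ c : ℝ, 0 < c ∧ ∀ᶠ j : ℕ in atTop, (num Q E (2 * j) : ℝ) ≤
            Real.exp (-(c * (2 * j : ℝ) ^ (2 / 3 : ℝ))) * a Q (2 * j)) ∧
          ∀ D μ : ℝ, (∃ᶠ j : ℕ in atTop, μ ^ (2 * j) ≤ (2 * j : ℝ) ^ D * num Q E (2 * j)) →
            μ < gr Q) ∧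
        (NonInv κ → ∀ ε : ℝ, 0 < ε → ∀ᶠ j : ℕ in atTop, ∀ w ∈ K Q (2 * j), Irr w →
            ¬ Has κ ⌈ε * (2 * j : ℝ) ^ (2 / 3 : ℝ)⌉₊ (vl w))) ∧
    (∀ κ : List V, NCG κ → NonInv κ) ∧ (∃ w, SAP w ∧ NCG (vl w)) ∧
    ∀ S : List Dir → Prop, KClass (Gen S) ∧ CSum (Gen S) ∧ ∀ w, SAP w → S w → Gen S w := by
  refine ⟨uni, ?_, fun κ h => ncg_ninv κ h,
    ⟨.zm :: v0, ⟨by decide, by decide +kernel, by decide +kernel⟩, e_tre⟩, ?_⟩
  · intro Q hQ hc hne
    refine ⟨fun F hF => fin_typ hQ hc F hF, ?_⟩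
    rintro κ ⟨w0, hw0, hQ0, h0⟩
    refine ⟨?_, ?_⟩
    · intro E hE
      obtain ⟨c, hc0, H⟩ := typ_sum' hQ hc hw0 hQ0 h0
      have H' : ∀ᶠ j : ℕ in atTop, (num Q E (2 * j) : ℝ) ≤
          Real.exp (-(c * (2 * j : ℝ) ^ (2 / 3 : ℝ))) * a Q (2 * j) := by
        filter_upwards [H, hE c hc0] with j h1 h2
        refine le_trans ?_ h1
        have h3 : num Q E (2 * j) ≤
            num Q (fun w => ¬ Has κ ⌈c * (2 * j : ℝ) ^ (2 / 3 : ℝ)⌉₊ (vl w)) (2 * j) := by
          unfold num a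
          apply card_le_card
          intro w hw
          obtain ⟨g1, g2, g3, g4⟩ := mem_K.1 hw
          exact mem_K.2 ⟨g1, g2, g3, h2 w (mem_K.2 ⟨g1, g2, g3⟩) g4⟩
        exact_mod_cast h3
      exact ⟨⟨c, hc0, H'⟩, fun D μ hD =>
        rare_lt hQ hne hc (b := fun n => (num Q E n : ℝ)) hc0 H' D μ hD⟩
    · intro hinv ε hε
      filter_upwards [(tend_y hε).eventually_gt_atTop 1] with j hj w _ hI h
      apply not_irr hinv (has_le ?_ h) hI
      have h1 : ((1 : ℕ) : ℝ) < ε * (2 * j : ℝ) ^ (2 / 3 : ℝ) := by exact_mod_cast hj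
      exact Nat.lt_ceil.2 h1
  · intro S
    refine ⟨⟨fun w w' hw hw' h h1 Q hQ hc hS => ?_, fun w w' hw hw' h h1 Q hQ hc hS => ?_⟩,
      fun l1 v l2 hF h1 h2 Q hQ hc hS => ?_, fun w hw hS Q hQ hc h => h w hw hS⟩
    · exact hQ.same w w' hw hw' h (h1 Q hQ hc hS)
    · exact hQ.rev w w' hw hw' h (h1 Q hQ hc hS)
    · exact hc l1 v l2 hF (h1 Q hQ hc hS) (h2 Q hQ hc hS)

end Pool.Agent.Results.MP_aea6d5_co.TypicalSummands
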